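import Pool.Agent.H360R2.RG.Stubs
import Pool.Agent.H178R2.LgNum

open Complex Filter Topology Set MeasureTheory

namespace RGap

theorem NUM1_proof : NUM1 := by
  unfold NUM1 lam1
  have hpi := Real.pi_pos
  set s : ℝ := Real.pi * (26 / 25) / 2 with hs
  have hs0 : 0 < s := by positivity
  have hpt : ∀ v : ℝ, 0 ≤ v → s - s ^ 3 * v ^ 2 / 6 + s ^ 5 * v ^ 4 / 120 - s ^ 7 * v ^ 6 / 5040
      + s ^ 9 * v ^ 8 / 362880 - s ^ 11 * v ^ 10 / 39916800 ≤ s * Real.sinc (s * v) := by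
    intro v hv
    have h := LG.num_sinc s v hs0.le hv
    simp only [Finset.sum_range_succ, Finset.sum_range_zero] at h
    norm_num [Nat.factorial] at h
    linarith
  have hint : ∫ v in (0 : ℝ)..1, (s - s ^ 3 * v ^ 2 / 6 + s ^ 5 * v ^ 4 / 120 - s ^ 7 * v ^ 6 / 5040
      + s ^ 9 * v ^ 8 / 362880 - s ^ 11 * v ^ 10 / 39916800) * (1 - v) ≤
      ∫ v in (0 : ℝ)..1, s * Real.sinc (s * v) * (1 - v) := by
    refine intervalIntegral.integral_mono_on (by norm_num) ?_ ?_ ?_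
    · exact Continuous.intervalIntegrable (by fun_prop) _ _
    · have := Real.continuous_sinc
      exact Continuous.intervalIntegrable (by fun_prop) _ _
    · intro v hv
      exact mul_le_mul_of_nonneg_right (hpt v hv.1) (by linarith [hv.2])
  have hval : ∫ v in (0 : ℝ)..1, (s - s ^ 3 * v ^ 2 / 6 + s ^ 5 * v ^ 4 / 120 - s ^ 7 * v ^ 6 / 5040
      + s ^ 9 * v ^ 8 / 362880 - s ^ 11 * v ^ 10 / 39916800) * (1 - v) =
      s / 2 - s ^ 3 / 72 + s ^ 5 / 3600 - s ^ 7 / 282240 + s ^ 9 / 32659200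
        - s ^ 11 / 5269017600 := by
    have hp : ∀ (n : ℕ) (v : ℝ), HasDerivAt (fun v : ℝ => v ^ (n + 1) / ((n : ℝ) + 1)) (v ^ n) v := by
      intro n v
      have := (hasDerivAt_pow (n + 1) v).div_const ((n : ℝ) + 1)
      refine this.congr_deriv ?_
      have : ((n : ℝ) + 1) ≠ 0 := by positivity
      push_cast
      field_simp
    have hI : ∀ n : ℕ, ∫ v in (0 : ℝ)..1, v ^ n = 1 / ((n : ℝ) + 1) := by
      intro n
      rw [integral_pow]; simp
    have e : (fun v : ℝ => (s - s ^ 3 * v ^ 2 / 6 + s ^ 5 * v ^ 4 / 120 - s ^ 7 * v ^ 6 / 5040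
      + s ^ 9 * v ^ 8 / 362880 - s ^ 11 * v ^ 10 / 39916800) * (1 - v)) = fun v =>
      s - s * v ^ 1 - s ^ 3 / 6 * v ^ 2 + s ^ 3 / 6 * v ^ 3 + s ^ 5 / 120 * v ^ 4
        - s ^ 5 / 120 * v ^ 5 - s ^ 7 / 5040 * v ^ 6 + s ^ 7 / 5040 * v ^ 7
        + s ^ 9 / 362880 * v ^ 8 - s ^ 9 / 362880 * v ^ 9
        - s ^ 11 / 39916800 * v ^ 10 + s ^ 11 / 39916800 * v ^ 11 := by
      funext v; ring
    rw [e]
    have c : ∀ (a : ℝ) (n : ℕ), IntervalIntegrable (fun v : ℝ => a * v ^ n) volume 0 1 := fun a n =>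
      Continuous.intervalIntegrable (by fun_prop) _ _
    set F : ℝ → ℝ := fun v => s * v - s * (v ^ 2 / 2) - s ^ 3 / 6 * (v ^ 3 / 3)
      + s ^ 3 / 6 * (v ^ 4 / 4) + s ^ 5 / 120 * (v ^ 5 / 5) - s ^ 5 / 120 * (v ^ 6 / 6)
      - s ^ 7 / 5040 * (v ^ 7 / 7) + s ^ 7 / 5040 * (v ^ 8 / 8) + s ^ 9 / 362880 * (v ^ 9 / 9)
      - s ^ 9 / 362880 * (v ^ 10 / 10) - s ^ 11 / 39916800 * (v ^ 11 / 11)
      + s ^ 11 / 39916800 * (v ^ 12 / 12) with hF
    have hd : ∀ v : ℝ, HasDerivAt F (s - s * v ^ 1 - s ^ 3 / 6 * v ^ 2 + s ^ 3 / 6 * v ^ 3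
        + s ^ 5 / 120 * v ^ 4
        - s ^ 5 / 120 * v ^ 5 - s ^ 7 / 5040 * v ^ 6 + s ^ 7 / 5040 * v ^ 7
        + s ^ 9 / 362880 * v ^ 8 - s ^ 9 / 362880 * v ^ 9
        - s ^ 11 / 39916800 * v ^ 10 + s ^ 11 / 39916800 * v ^ 11) v := by
      intro v
      have h0 := (hasDerivAt_id v).const_mul s
      have h1 := (hp 1 v).const_mul s
      have h2 := (hp 2 v).const_mul (s ^ 3 / 6)
      have h3 := (hp 3 v).const_mul (s ^ 3 / 6)
      have h4 := (hp 4 v).const_mul (s ^ 5 / 120)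
      have h5 := (hp 5 v).const_mul (s ^ 5 / 120)
      have h6 := (hp 6 v).const_mul (s ^ 7 / 5040)
      have h7 := (hp 7 v).const_mul (s ^ 7 / 5040)
      have h8 := (hp 8 v).const_mul (s ^ 9 / 362880)
      have h9 := (hp 9 v).const_mul (s ^ 9 / 362880)
      have h10 := (hp 10 v).const_mul (s ^ 11 / 39916800)
      have h11 := (hp 11 v).const_mul (s ^ 11 / 39916800)
      have hh := ((((((((((h0.sub h1).sub h2).add h3).add h4).sub h5).sub h6).add h7).add h8).sub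
        h9).sub h10).add h11
      refine HasDerivAt.congr_deriv (hh.congr_of_eventuallyEq (Filter.Eventually.of_forall ?_)) ?_
      · intro w
        simp only [Pi.add_apply, Pi.sub_apply, hF, id]
        norm_num
      · ring
    rw [intervalIntegral.integral_eq_sub_of_hasDerivAt (fun v _ => hd v)
      (Continuous.intervalIntegrable (by fun_prop) _ _)]
    simp only [hF]
    ring
  have hlo : (3.14 : ℝ) < Real.pi := Real.pi_gt_d2
  have hup : Real.pi < (3.15 : ℝ) := Real.pi_lt_d2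
  have hmain : 24 / 25 * Real.pi < 4 * (s / 2 - s ^ 3 / 72 + s ^ 5 / 3600 - s ^ 7 / 282240
      + s ^ 9 / 32659200 - s ^ 11 / 5269017600) := by
    have hspi : s = 13 / 25 * Real.pi := by rw [hs]; ring
    have key : 4 * (s / 2 - s ^ 3 / 72 + s ^ 5 / 3600 - s ^ 7 / 282240
      + s ^ 9 / 32659200 - s ^ 11 / 5269017600) = Real.pi * (52 / 25 * (1 / 2 - s ^ 2 / 72
        + s ^ 4 / 3600 - s ^ 6 / 282240 + s ^ 8 / 32659200 - s ^ 10 / 5269017600)) := by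
      rw [hspi]; ring
    rw [key, mul_comm (24 / 25 : ℝ)]
    refine mul_lt_mul_of_pos_left ?_ hpi
    have l : (1.6328 : ℝ) ≤ s := by rw [hspi]; norm_num at hlo ⊢; linarith
    have u : s ≤ (1.638 : ℝ) := by rw [hspi]; norm_num at hup ⊢; linarith
    have u2 : s ^ 2 ≤ (1.638 : ℝ) ^ 2 := by gcongr
    have l4 : (1.6328 : ℝ) ^ 4 ≤ s ^ 4 := by gcongr
    have u6 : s ^ 6 ≤ (1.638 : ℝ) ^ 6 := by gcongr
    have l8 : (1.6328 : ℝ) ^ 8 ≤ s ^ 8 := by gcongr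
    have u10 : s ^ 10 ≤ (1.638 : ℝ) ^ 10 := by gcongr
    norm_num at u2 l4 u6 l8 u10
    linarith
  have hfin := hint
  rw [hval] at hfin
  have e2 : (4 : ℝ) / Real.pi * (∫ v in (0 : ℝ)..1, s * Real.sinc (s * v) * (1 - v)) =
      (4 * ∫ v in (0 : ℝ)..1, s * Real.sinc (s * v) * (1 - v)) / Real.pi := by ring
  rw [e2, lt_div_iff₀ hpi]
  linarith

end RGap
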